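import Mathlib
import Pool.Agent.H28.NormEq

set_option autoImplicit false

open Filter Topology Matrix

namespace Pool.Agent.Results.MP_36f7ac_an.AllFail

/-- the product `Aₙ Bₙ ⋯ A₁ B₁` -/
def P {N : ℕ} (n : ℕ) (A B : Fin n → Matrix (Fin N) (Fin N) ℝ) : Matrix (Fin N) (Fin N) ℝ :=
  (List.ofFn (fun i => A i * B i)).reverse.prod

/-- spectral radius of a real matrix (largest modulus of a complex eigenvalue) -/
noncomputable def rho {N : ℕ} (X : Matrix (Fin N) (Fin N) ℝ) : ℝ :=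
  (spectralRadius ℂ (X.map ((↑) : ℝ → ℂ))).toReal

/-- max over `𝒜`-words of min over `ℬ`-words of `f` of the product -/
noncomputable def mu {N : ℕ} (𝒜 ℬ : Finset (Matrix (Fin N) (Fin N) ℝ))
    (f : Matrix (Fin N) (Fin N) ℝ → ℝ) (n : ℕ) : ℝ :=
  ⨆ A : Fin n → 𝒜, ⨅ B : Fin n → ℬ, f (P n (fun i => A i) (fun i => B i))

/-- min over `ℬ`-words of max over `𝒜`-words of `f` of the product -/
noncomputable def eta {N : ℕ} (𝒜 ℬ : Finset (Matrix (Fin N) (Fin N) ℝ))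
    (f : Matrix (Fin N) (Fin N) ℝ → ℝ) (n : ℕ) : ℝ :=
  ⨅ B : Fin n → ℬ, ⨆ A : Fin n → 𝒜, f (P n (fun i => A i) (fun i => B i))

/-- `n`-th root of the `n`-th term -/
noncomputable def root (u : ℕ → ℝ) (n : ℕ) : ℝ := u n ^ ((1 : ℝ) / n)

lemma P_succ {N : ℕ} (n : ℕ) (A B : Fin (n + 1) → Matrix (Fin N) (Fin N) ℝ) :
    P (n + 1) A B = A (Fin.last n) * B (Fin.last n) *
      P n (fun i => A i.castSucc) (fun i => B i.castSucc) := by
  simp only [P, List.ofFn_succ', List.concat_eq_append, List.reverse_append,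
    List.reverse_singleton, List.singleton_append, List.prod_cons]

def pf (n : ℕ) : Bool := if h : n = 0 then true else if n % 2 = 0 then pf (n / 2) else n % 4 == 1
decreasing_by omega

lemma pf_even {n : ℕ} (h : n ≠ 0) : pf (2 * n) = pf n := by
  rw [pf, dif_neg (by omega), if_pos (by omega)]
  congr 1; omega

lemma pf_odd {n : ℕ} (h : n % 2 = 1) : pf n = (n % 4 == 1) := by
  rw [pf, dif_neg (by omega), if_neg (by omega)]

lemma pf_sq (p : ℕ) : p ≠ 0 → p % 2 = 0 → ∀ i, 1 ≤ i → ∃ j, i ≤ j ∧ j < i + p ∧ pf j ≠ pf (j + p) := by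
  induction p using Nat.strong_induction_on with
  | _ p ih =>
    intro h0 h2 i hi
    by_cases h4 : p % 4 = 2
    · refine ⟨i + (i + 1) % 2, by omega, by omega, ?_⟩
      rw [pf_odd (by omega), pf_odd (by omega)]
      intro h
      have := Bool.eq_iff_iff.1 h
      simp only [beq_iff_eq] at this
      omega
    · obtain ⟨j, h1, h2, h3⟩ := ih (p / 2) (by omega) (by omega) (by omega) ((i + 1) / 2) (by omega)
      refine ⟨2 * j, by omega, by omega, ?_⟩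
      rw [pf_even (by omega), show 2 * j + p = 2 * (j + p / 2) by omega, pf_even (by omega)]
      exact h3

def dg (n : ℕ) : ℕ := 1 + n % 2 + 2 * (if pf (n + 1) then 1 else 0)

lemma dg_bd (n : ℕ) : 1 ≤ dg n ∧ dg n ≤ 4 := by
  unfold dg; split_ifs <;> omega

lemma dg_sq (i p : ℕ) (hp : 1 ≤ p) : ∃ t < p, dg (i + t) ≠ dg (i + p + t) := by
  by_cases h : p % 2 = 0
  · obtain ⟨j, h1, h2, h3⟩ := pf_sq p (by omega) h (i + 1) (by omega)
    refine ⟨j - 1 - i, by omega, ?_⟩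
    unfold dg
    rw [show i + (j - 1 - i) + 1 = j by omega, show i + p + (j - 1 - i) + 1 = j + p by omega]
    intro h4
    cases hj : pf j <;> cases hj' : pf (j + p) <;> simp_all <;> omega
  · refine ⟨0, by omega, ?_⟩
    unfold dg
    split_ifs <;> omega

def code (i : ℕ) : ℕ → ℕ
  | 0 => 0
  | k + 1 => 5 * code i k + dg (i + k)

lemma code_inj (i j a : ℕ) : ∀ b, code i a = code j b → a = b ∧ ∀ t < a, dg (i + t) = dg (j + t) := by
  induction a with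
  | zero =>
    intro b h
    cases b with
    | zero => simp
    | succ b => simp only [code] at h; have := dg_bd (j + b); omega
  | succ a ih =>
    intro b h
    cases b with
    | zero => simp only [code] at h; have := dg_bd (i + a); omega
    | succ b =>
      simp only [code] at h
      have h1 := dg_bd (i + a)
      have h2 := dg_bd (j + b)
      obtain ⟨rfl, h4⟩ := ih b (by omega)
      refine ⟨rfl, fun t ht => ?_⟩
      rcases Nat.lt_succ_iff_lt_or_eq.1 ht with h5 | rfl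
      · exact h4 t h5
      · omega

lemma code_ne (i a b : ℕ) (ha : 1 ≤ a) : code i a ≠ code (i + a) b := by
  intro h
  obtain ⟨rfl, h2⟩ := code_inj _ _ _ _ h
  obtain ⟨t, ht, h3⟩ := dg_sq i a ha
  exact h3 (h2 t ht)

def G (α β : ℝ) : Matrix (Fin 6) (Fin 6) ℝ :=
  !![1, 0, 0, 0, 0, 0; 0, α, β, 0, 0, 0; 0, 0, 1, 0, 0, 0;
     0, 0, 0, 1, 0, 0; 0, 0, 0, 0, α, β; 0, 0, 0, 0, 0, 1]

def S : Matrix (Fin 6) (Fin 6) ℝ :=
  !![0, 0, 0, 1, -1, 0; 0, 0, 0, 0, 0, 0; 1, 0, 0, 0, 0, 0;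
     0, 1, 0, 0, 0, 0; 0, 0, 0, 0, 0, 0; 0, 0, 1, 0, 0, 0]

lemma G_vec (α β a b c d e f : ℝ) :
    G α β *ᵥ ![a, b, c, d, e, f] = ![a, α * b + β * c, c, d, α * e + β * f, f] := by
  ext i; fin_cases i <;> simp [G, mulVec, dotProduct, Fin.sum_univ_succ]

lemma S_vec (a b c d e f : ℝ) :
    S *ᵥ ![a, b, c, d, e, f] = ![d - e, 0, a, b, 0, c] := by
  ext i; fin_cases i <;> simp [S, mulVec, dotProduct, Fin.sum_univ_succ, sub_eq_add_neg]

lemma vec_eta (v : Fin 6 → ℝ) : v = ![v 0, v 1, v 2, v 3, v 4, v 5] := by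
  ext i; fin_cases i <;> rfl

lemma G_mul (α β α' β' : ℝ) : G α β * G α' β' = G (α * α') (α * β' + β) := by
  apply Matrix.toLin'.injective
  apply LinearMap.ext
  intro v
  rw [toLin'_apply, toLin'_apply, ← mulVec_mulVec, vec_eta v, G_vec, G_vec, G_vec]
  ext i; fin_cases i <;> simp <;> ring

lemma nil (α β : ℝ) : (G α β * S) ^ 5 = 0 := by
  apply Matrix.toLin'.injective
  apply LinearMap.ext
  intro v
  rw [toLin'_apply, toLin'_apply, zero_mulVec, vec_eta v]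
  simp only [pow_succ, pow_zero, one_mul, ← mulVec_mulVec, G_vec, S_vec]
  ext i; fin_cases i <;> simp

lemma rho_nil {N : ℕ} (X : Matrix (Fin (N + 1)) (Fin (N + 1)) ℝ) (h : X ^ 5 = 0) : rho X = 0 := by
  have h1 : (X.map ((↑) : ℝ → ℂ)) ^ 5 = 0 := by
    have := congrArg (Complex.ofRealHom.mapMatrix) h
    rw [map_pow, map_zero] at this
    exact this
  unfold rho
  have : spectralRadius ℂ (X.map ((↑) : ℝ → ℂ)) = 0 := by
    refine le_antisymm (iSup₂_le fun k hk => ?_) zero_le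
    have h2 := spectrum.pow_mem_pow _ 5 hk
    rw [h1, spectrum.zero_eq, Set.mem_singleton_iff] at h2
    simp [pow_eq_zero_iff (by norm_num : 5 ≠ 0) |>.1 h2]
  simp [this]

lemma shape (n : ℕ) : ∀ (A B : Fin (n + 1) → Matrix (Fin 6) (Fin 6) ℝ),
    (∀ i, ∃ d, A i = G 5 d) → (∀ i, B i = if i.val = 0 then S else 1) →
    ∃ α β, P (n + 1) A B = G α β * S := by
  induction n with
  | zero =>
    intro A B hA hB
    obtain ⟨d, hd⟩ := hA (Fin.last 0)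
    refine ⟨5, d, ?_⟩
    rw [P_succ, hd, hB]
    simp [P]
  | succ n ih =>
    intro A B hA hB
    obtain ⟨d, hd⟩ := hA (Fin.last (n + 1))
    obtain ⟨α, β, h⟩ := ih (fun i => A i.castSucc) (fun i => B i.castSucc) (fun i => hA _)
      (fun i => by simp [hB])
    refine ⟨5 * α, 5 * β + d, ?_⟩
    rw [P_succ, h, hd, hB, if_neg (by simp), mul_one, ← mul_assoc, G_mul]

def Inv (n : ℕ) (v : Fin 6 → ℝ) : Prop :=
  ∃ m : ℤ, m ≠ 0 ∧ (v = ![(m : ℝ), 0, 0, 0, 0, 0] ∨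
    (∃ i a, 1 ≤ a ∧ i + a = n ∧ v = ![0, (m : ℝ) * code i a, (m : ℝ), 0, 0, 0]) ∨
    (∃ i a b, 1 ≤ a ∧ i + a + b = n ∧ 
      v = ![0, 0, 0, (m : ℝ) * code i a, (m : ℝ) * code (i + a) b, (m : ℝ)]))

lemma alive (n : ℕ) : ∀ (B : Fin n → Matrix (Fin 6) (Fin 6) ℝ), (∀ i, B i = 1 ∨ B i = S) →
    Inv n (P n (fun i => G 5 (dg i)) B *ᵥ ![1, 0, 0, 0, 0, 0]) := by
  induction n with
  | zero =>
    intro B _
    exact ⟨1, one_ne_zero, Or.inl (by simp [P])⟩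
  | succ n ih =>
    intro B hB
    obtain ⟨m, hm, h⟩ := ih (fun i => B i.castSucc) (fun i => hB _)
    rw [P_succ, ← mulVec_mulVec, ← mulVec_mulVec]
    simp only [Fin.val_castSucc, Fin.val_last]
    rcases hB (Fin.last n) with hb | hb <;> rw [hb]
    · rw [one_mulVec]
      rcases h with h | ⟨i, a, ha, hn, h⟩ | ⟨i, a, b, ha, hn, h⟩ <;> rw [h, G_vec]
      · exact ⟨m, hm, Or.inl (by simp)⟩
      · refine ⟨m, hm, Or.inr (Or.inl ⟨i, a + 1, by omega, by omega, ?_⟩)⟩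
        simp only [code, hn]; push_cast; ring_nf
      · refine ⟨m, hm, Or.inr (Or.inr ⟨i, a, b + 1, ha, by omega, ?_⟩)⟩
        simp only [code, hn]; push_cast; ring_nf
    · rcases h with h | ⟨i, a, ha, hn, h⟩ | ⟨i, a, b, ha, hn, h⟩ <;> rw [h, S_vec, G_vec]
      · refine ⟨m, hm, Or.inr (Or.inl ⟨n, 1, le_rfl, rfl, ?_⟩)⟩
        simp only [code, add_zero]; push_cast; ring_nf
      · refine ⟨m, hm, Or.inr (Or.inr ⟨i, a, 1, ha, by omega, ?_⟩)⟩
        simp only [code, hn, add_zero]; push_cast; ring_nf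
      · refine ⟨m * ((code i a : ℤ) - code (i + a) b), mul_ne_zero hm ?_, Or.inl ?_⟩
        · rw [sub_ne_zero]; exact_mod_cast code_ne i a b ha
        · push_cast; ring_nf

lemma big (n : ℕ) (B : Fin n → Matrix (Fin 6) (Fin 6) ℝ) (hB : ∀ i, B i = 1 ∨ B i = S) :
    ∃ r, 1 ≤ |P n (fun i => G 5 (dg i)) B r 0| := by
  obtain ⟨m, hm, h⟩ := alive n B hB
  have h1 : (1 : ℝ) ≤ |(m : ℝ)| := by exact_mod_cast Int.one_le_abs hm
  have e : ∀ r, P n (fun i => G 5 (dg i)) B r 0 =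
      (P n (fun i => G 5 (dg i)) B *ᵥ ![1, 0, 0, 0, 0, 0]) r := by
    intro r; simp [mulVec, dotProduct, Fin.sum_univ_succ]
  rcases h with h | ⟨i, a, ha, hn, h⟩ | ⟨i, a, b, ha, hn, h⟩
  · exact ⟨0, by rw [e, h]; simpa using h1⟩
  · exact ⟨2, by rw [e, h]; simpa using h1⟩
  · exact ⟨5, by rw [e, h]; simpa using h1⟩

lemma root_ge (u : ℕ → ℝ) (c L : ℝ) (hc : 0 < c) (h : ∀ n, c ≤ u n)
    (hL : Tendsto (root u) atTop (𝓝 L)) : 1 ≤ L := by
  have h1 : Tendsto (fun n : ℕ => c ^ ((1 : ℝ) / n)) atTop (𝓝 (c ^ (0 : ℝ))) :=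
    tendsto_const_nhds.rpow tendsto_one_div_atTop_nhds_zero_nat (Or.inl hc.ne')
  rw [Real.rpow_zero] at h1
  exact le_of_tendsto_of_tendsto' h1 hL
    (fun n => Real.rpow_le_rpow hc.le (h n) (by positivity))

lemma root_zero (u : ℕ → ℝ) (h : ∀ n, u (n + 1) = 0) : Tendsto (root u) atTop (𝓝 0) := by
  refine tendsto_const_nhds.congr' ?_
  filter_upwards [eventually_ge_atTop 1] with n hn
  obtain ⟨k, rfl⟩ : ∃ k, n = k + 1 := ⟨n - 1, by omega⟩
  rw [root, h, Real.zero_rpow (by positivity)]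

theorem result : ∃ (N : ℕ) (𝒜 ℬ : Finset (Matrix (Fin N) (Fin N) ℝ)), 1 ≤ N ∧
    𝒜.Nonempty ∧ ℬ.Nonempty ∧
    limsup (root (mu 𝒜 ℬ rho)) atTop = 0 ∧ liminf (root (mu 𝒜 ℬ rho)) atTop = 0 ∧
    limsup (root (eta 𝒜 ℬ rho)) atTop = 0 ∧ liminf (root (eta 𝒜 ℬ rho)) atTop = 0 ∧
    ∀ ν : Seminorm ℝ (Matrix (Fin N) (Fin N) ℝ), (∀ X, ν X = 0 → X = 0) →
      (∃ c : ℝ, 0 < c ∧ ∀ n, c ≤ mu 𝒜 ℬ ν n ∧ c ≤ eta 𝒜 ℬ ν n) ∧
      (∀ L, Tendsto (root (mu 𝒜 ℬ ν)) atTop (𝓝 L) → 1 ≤ L) ∧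
      (∀ L, Tendsto (root (eta 𝒜 ℬ ν)) atTop (𝓝 L) → 1 ≤ L) := by
  classical
  let 𝒜 : Finset (Matrix (Fin 6) (Fin 6) ℝ) := (Finset.Icc 1 4).image (fun d : ℕ => G 5 d)
  let ℬ : Finset (Matrix (Fin 6) (Fin 6) ℝ) := {1, S}
  have hA : ∀ n, G 5 (dg n) ∈ 𝒜 := fun n =>
    Finset.mem_image.2 ⟨dg n, Finset.mem_Icc.2 (dg_bd n), rfl⟩
  have hA' : ∀ X : 𝒜, ∃ d, (X : Matrix (Fin 6) (Fin 6) ℝ) = G 5 d := fun X => by
    obtain ⟨d, _, hd⟩ := Finset.mem_image.1 X.2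
    exact ⟨d, hd.symm⟩
  have hB : ∀ X : ℬ, (X : Matrix (Fin 6) (Fin 6) ℝ) = 1 ∨ (X : Matrix (Fin 6) (Fin 6) ℝ) = S :=
    fun X => by
      have := X.2
      simp only [ℬ, Finset.mem_insert, Finset.mem_singleton] at this
      exact this
  haveI : Nonempty 𝒜 := ⟨⟨_, hA 0⟩⟩
  haveI : Nonempty ℬ := ⟨⟨1, by simp [ℬ]⟩⟩
  let B0 : ∀ n, Fin n → ℬ := fun n i =>
    ⟨if i.val = 0 then S else 1, by split_ifs <;> simp [ℬ]⟩
  have r0 : ∀ X : Matrix (Fin 6) (Fin 6) ℝ, 0 ≤ rho X := fun X => ENNReal.toReal_nonneg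
  have z : ∀ n (A : Fin (n + 1) → 𝒜),
      rho (P (n + 1) (fun i => (A i : Matrix (Fin 6) (Fin 6) ℝ)) (fun i => B0 (n + 1) i)) = 0 := by
    intro n A
    obtain ⟨α, β, h⟩ := shape n (fun i => A i) (fun i => B0 (n + 1) i) (fun i => hA' _)
      (fun i => rfl)
    rw [h]
    exact rho_nil _ (nil α β)
  have m0 : Tendsto (root (mu 𝒜 ℬ rho)) atTop (𝓝 0) := by
    refine root_zero _ (fun n => ?_)
    unfold mu
    rw [← ciSup_const (ι := Fin (n + 1) → 𝒜) (a := (0 : ℝ))]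
    congr 1; ext A
    exact le_antisymm ((ciInf_le (Finite.bddBelow_range _) (B0 _)).trans (z n A).le)
      (le_ciInf fun _ => r0 _)
  have e0 : Tendsto (root (eta 𝒜 ℬ rho)) atTop (𝓝 0) := by
    refine root_zero _ (fun n => ?_)
    unfold eta
    refine le_antisymm ((ciInf_le (Finite.bddBelow_range _) (B0 _)).trans
      (ciSup_le fun A => (z n A).le)) (le_ciInf fun B => Real.iSup_nonneg fun _ => r0 _)
  refine ⟨6, 𝒜, ℬ, by norm_num, ⟨_, hA 0⟩, ⟨1, by simp [ℬ]⟩, m0.limsup_eq, m0.liminf_eq,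
    e0.limsup_eq, e0.liminf_eq, fun ν hν => ?_⟩
  obtain ⟨c, hc, hle⟩ := Pool.Agent.H28.NormEq.lower ν hν
  let A0 : ∀ n, Fin n → 𝒜 := fun n i => ⟨G 5 (dg i), hA i⟩
  have low : ∀ n (B : Fin n → ℬ),
      c ≤ ν (P n (fun i => (A0 n i : Matrix (Fin 6) (Fin 6) ℝ)) (fun i => B i)) := by
    intro n B
    obtain ⟨r, hr⟩ := big n (fun i => B i) (fun i => hB _)
    have := hle (P n (fun i => G 5 (dg i)) (fun i => B i)) r 0
    exact le_trans (by nlinarith) this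
  have key : ∀ n, c ≤ mu 𝒜 ℬ ν n ∧ c ≤ eta 𝒜 ℬ ν n := fun n =>
    ⟨le_ciSup_of_le (Finite.bddAbove_range _) (A0 n) (le_ciInf (low n)),
      le_ciInf fun B => le_ciSup_of_le (Finite.bddAbove_range _) (A0 n) (low n B)⟩
  exact ⟨⟨c, hc, key⟩, fun L => root_ge _ c L hc (fun n => (key n).1),
    fun L => root_ge _ c L hc (fun n => (key n).2)⟩

end Pool.Agent.Results.MP_36f7ac_an.AllFail
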